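import Mathlib

/-!
# Real arithmetic for the golden ratio theorem

* `opt_of_dyadic`: the linearised entropy power inequality at all dyadic weights gives the entropy
  power inequality.
* `golden_of_power`: the final deduction.
-/

set_option autoImplicit false

namespace Pool.Agent.MP_ec2ab1_pr.GR

open Filter Topology

/-- Half the binary entropy. -/
noncomputable def hb (l : ℝ) : ℝ := (-(l * Real.log l) - (1 - l) * Real.log (1 - l)) / 2

theorem continuous_hb : Continuous hb := by
  have h1 : Continuous fun l : ℝ => l * Real.log l := Real.continuous_mul_log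
  have h2 : Continuous fun l : ℝ => (1 - l) * Real.log (1 - l) :=
    Real.continuous_mul_log.comp (continuous_const.sub continuous_id)
  exact (h1.neg.sub h2).div_const 2

/-- A bound that holds at all dyadic weights in `(0, 1)` holds at all weights in `(0, 1)`. -/
theorem all_of_dyadic {f : ℝ → ℝ} (hf : Continuous f) {H : ℝ}
    (h : ∀ k n : ℕ, 0 < k → k < 2 ^ n → f ((k : ℝ) / 2 ^ n) ≤ H) {l : ℝ} (h0 : 0 < l)
    (h1 : l < 1) : f l ≤ H := by
  have hx : Tendsto (fun n : ℕ => (2 : ℝ) ^ n) atTop atTop :=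
    tendsto_pow_atTop_atTop_of_one_lt one_lt_two
  have ht : Tendsto (fun n : ℕ => ((⌊l * 2 ^ n⌋₊ : ℕ) : ℝ) / 2 ^ n) atTop (𝓝 l) :=
    (tendsto_nat_floor_mul_div_atTop h0.le).comp hx
  refine le_of_tendsto (hf.continuousAt.tendsto.comp ht) ?_
  have hev : ∀ᶠ n : ℕ in atTop, 1 ≤ l * 2 ^ n := by
    have := (Tendsto.const_mul_atTop h0 hx).eventually_ge_atTop 1
    exact this
  filter_upwards [hev] with n hn
  refine h _ n ?_ ?_
  · exact Nat.floor_pos.2 hn
  · have hlt : l * 2 ^ n < ((2 ^ n : ℕ) : ℝ) := by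
      push_cast
      have : (0 : ℝ) < 2 ^ n := by positivity
      nlinarith
    exact (Nat.floor_lt (by positivity)).2 hlt

/-- The maximum over the weight of the linearised bound. -/
theorem opt {a b H : ℝ}
    (h : ∀ l : ℝ, 0 < l → l < 1 → l * a + (1 - l) * b + hb l ≤ H) :
    Real.exp (2 * a) + Real.exp (2 * b) ≤ Real.exp (2 * H) := by
  set A := Real.exp (2 * a) with hA
  set B := Real.exp (2 * b) with hB
  have hApos : 0 < A := Real.exp_pos _
  have hBpos : 0 < B := Real.exp_pos _
  have hS : 0 < A + B := by positivity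
  have hl0 : 0 < A / (A + B) := by positivity
  have hl1 : A / (A + B) < 1 := by
    rw [div_lt_one hS]
    linarith
  have h1l : 1 - A / (A + B) = B / (A + B) := by
    field_simp
    ring
  have key := h (A / (A + B)) hl0 hl1
  have hla : Real.log A = 2 * a := Real.log_exp _
  have hlb : Real.log B = 2 * b := Real.log_exp _
  have e1 : Real.log (A / (A + B)) = 2 * a - Real.log (A + B) := by
    rw [Real.log_div hApos.ne' hS.ne', hla]
  have e2 : Real.log (B / (A + B)) = 2 * b - Real.log (A + B) := by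
    rw [Real.log_div hBpos.ne' hS.ne', hlb]
  have hsum : A / (A + B) + B / (A + B) = 1 := by
    rw [← add_div, div_self hS.ne']
  have hfin : A / (A + B) * a + (1 - A / (A + B)) * b + hb (A / (A + B))
      = Real.log (A + B) / 2 := by
    unfold hb
    rw [h1l, e1, e2]
    have : A / (A + B) * a + B / (A + B) * b +
        (-(A / (A + B) * (2 * a - Real.log (A + B))) -
          B / (A + B) * (2 * b - Real.log (A + B))) / 2
        = (A / (A + B) + B / (A + B)) * Real.log (A + B) / 2 := by ring
    rw [this, hsum, one_mul]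
  rw [hfin] at key
  have : Real.log (A + B) ≤ 2 * H := by linarith
  calc A + B = Real.exp (Real.log (A + B)) := (Real.exp_log hS).symm
    _ ≤ Real.exp (2 * H) := Real.exp_le_exp.2 this

/-- Entropy power form from the dyadic weights. -/
theorem opt_of_dyadic {a b H : ℝ}
    (h : ∀ k n : ℕ, 0 < k → k < 2 ^ n →
      ((k : ℝ) / 2 ^ n) * a + (1 - (k : ℝ) / 2 ^ n) * b + hb ((k : ℝ) / 2 ^ n) ≤ H) :
    Real.exp (2 * a) + Real.exp (2 * b) ≤ Real.exp (2 * H) := by
  refine opt fun l h0 h1 => ?_
  have hc : Continuous fun l : ℝ => l * a + (1 - l) * b + hb l := by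
    have := continuous_hb
    fun_prop
  exact all_of_dyadic hc h h0 h1

/-- From submodularity and the entropy power inequality: `x = h(X+Y)`, `q = h(X+Y+Z)`,
`s = h(X+Z)`, `g = h(Z)`. -/
theorem power_le {x q s g : ℝ} (hsub : q + g ≤ 2 * s)
    (hepi : Real.exp (2 * x) + Real.exp (2 * g) ≤ Real.exp (2 * q)) :
    Real.exp (2 * x) + Real.exp (2 * g) ≤ Real.exp (4 * s) / Real.exp (2 * g) := by
  rw [le_div_iff₀ (Real.exp_pos _)]
  calc (Real.exp (2 * x) + Real.exp (2 * g)) * Real.exp (2 * g)
      ≤ Real.exp (2 * q) * Real.exp (2 * g) :=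
        mul_le_mul_of_nonneg_right hepi (Real.exp_pos _).le
    _ = Real.exp (2 * (q + g)) := by rw [← Real.exp_add]; ring_nf
    _ ≤ Real.exp (4 * s) := Real.exp_le_exp.2 (by linarith)

/-- The golden ratio conclusion: if `exp(2x) <= phi exp(2g)` then `x <= s`. -/
theorem golden {x s g : ℝ}
    (h : Real.exp (2 * x) + Real.exp (2 * g) ≤ Real.exp (4 * s) / Real.exp (2 * g))
    (hx : Real.exp (2 * x) ≤ Real.goldenRatio * Real.exp (2 * g)) : x ≤ s := by
  set P := Real.exp (2 * g) with hP
  have hPpos : 0 < P := Real.exp_pos _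
  set t := Real.exp (2 * x) with ht
  have htpos : 0 < t := Real.exp_pos _
  have h1 : t ^ 2 ≤ (t + P) * P := by
    have hφ := Real.goldenRatio_sq
    have hφ0 := Real.goldenRatio_pos
    have h2 : t ^ 2 ≤ t * P + P * P := by
      by_contra hcon
      push Not at hcon
      have h3 : t ≤ Real.goldenRatio * P := hx
      nlinarith [mul_pos htpos hPpos, mul_pos hPpos hPpos, mul_nonneg htpos.le (sub_nonneg.2 h3),
        mul_nonneg hPpos.le (sub_nonneg.2 h3), Real.one_lt_goldenRatio,
        mul_nonneg (mul_nonneg hPpos.le (sub_nonneg.2 h3)) hφ0.le,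
        mul_nonneg (sub_nonneg.2 h3) (sub_nonneg.2 Real.one_lt_goldenRatio.le)]
    nlinarith
  have h4 : (t + P) * P ≤ Real.exp (4 * s) := (le_div_iff₀ hPpos).1 h
  have h5 : Real.exp (4 * x) ≤ Real.exp (4 * s) := by
    have : t ^ 2 = Real.exp (4 * x) := by
      rw [ht, ← Real.exp_nat_mul]
      ring_nf
    linarith
  have := Real.exp_le_exp.1 h5
  linarith

end Pool.Agent.MP_ec2ab1_pr.GR
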