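import Mathlib
import Pool.Agent.Lib.MP_ec2ab1_pr_h18.Entropy
import Pool.Agent.Lib.MP_ec2ab1_pr_h74.Opt

/-!
# The golden ratio theorem: submodularity and the entropy power inequality in entropy form
-/

set_option autoImplicit false

namespace Pool.Agent.MP_ec2ab1_pr.GR

open MeasureTheory ProbabilityTheory InformationTheory
open scoped NNReal ENNReal
open Pool.Agent.Lib.MP_ec2ab1_pr_h18

/-- differential entropy of a law on the line, by the Radon-Nikodym derivative -/
noncomputable def ent (ν : Measure ℝ) : ℝ :=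
  -∫ x, (ν.rnDeriv volume x).toReal * Real.log (ν.rnDeriv volume x).toReal

/-- the law has a density with integrable entropy integrand -/
def EntOK (ν : Measure ℝ) : Prop :=
  ν ≪ volume ∧ Integrable (fun x => (ν.rnDeriv volume x).toReal *
    Real.log (ν.rnDeriv volume x).toReal) volume

theorem entOK_iff {ν : Measure ℝ} [IsProbabilityMeasure ν] (hmem : MemLp (fun x : ℝ => x) 2 ν)
    {v : ℝ≥0} (hv : v ≠ 0) : klDiv ν (G v) ≠ ∞ ↔ EntOK ν := kl_G_iff hmem hv

theorem kl_ent {ν : Measure ℝ} [IsProbabilityMeasure ν] (hmem : MemLp (fun x : ℝ => x) 2 ν)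
    {v : ℝ≥0} (hv : v ≠ 0) (h : EntOK ν) : (klDiv ν (G v)).toReal =
      -ent ν + (Real.log (2 * Real.pi * v) / 2 + (∫ x, x ^ 2 ∂ν) / (2 * v)) := by
  rw [kl_G_toReal hmem hv h.1 h.2, ent, neg_neg]

theorem entOK_G {c : ℝ≥0} (hc : c ≠ 0) : EntOK (G c) :=
  (entOK_iff (memLp_G c) hc).1 (by simp)

theorem ent_G {c : ℝ≥0} (hc : c ≠ 0) : ent (G c) = Real.log (2 * Real.pi * c) / 2 + 1 / 2 := by
  have h := kl_ent (memLp_G c) hc (entOK_G hc)
  have hc' : (c : ℝ) ≠ 0 := by positivity
  rw [klDiv_self, second_G, ENNReal.toReal_zero] at h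
  have h2 : (c : ℝ) / (2 * c) = 1 / 2 := by field_simp
  rw [h2] at h
  linarith

theorem exp_two_ent_G {c : ℝ≥0} (hc : c ≠ 0) :
    Real.exp (2 * ent (G c)) = 2 * Real.pi * Real.exp 1 * c := by
  have hc' : (0 : ℝ) < c := by positivity
  rw [ent_G hc]
  have : 2 * (Real.log (2 * Real.pi * c) / 2 + 1 / 2) = Real.log (2 * Real.pi * c) + 1 := by ring
  rw [this, Real.exp_add, Real.exp_log (by positivity)]
  ring

/-- **Submodularity** for a law of mean zero and variance one. -/
theorem sub_ent {P : Measure ℝ} [IsProbabilityMeasure P] (hP : MemLp (fun x : ℝ => x) 2 P)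
    (h1 : ∫ x, x ∂P = 0) (h2 : ∫ x, x ^ 2 ∂P = 1) {c : ℝ≥0} (hc : c ≠ 0) :
    EntOK (cv P (G c)) ∧ EntOK (cv (cv P P) (G c)) ∧
      ent (cv (cv P P) (G c)) + ent (G c) ≤ 2 * ent (cv P (G c)) := by
  have hc' : (0 : ℝ) < c := by positivity
  have hb : (1 + c : ℝ≥0) ≠ 0 := by positivity
  have hb2 : (2 + c : ℝ≥0) ≠ 0 := by positivity
  obtain ⟨a1, a2, a3⟩ := apriori_core hP h1 h2 hc
  have m1 : MemLp (fun x : ℝ => x) 2 (cv P (G c)) := memLp_cv hP (memLp_G c)
  have m0 : MemLp (fun x : ℝ => x) 2 (cv P P) := memLp_cv hP hP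
  have m2 : MemLp (fun x : ℝ => x) 2 (cv (cv P P) (G c)) := memLp_cv m0 (memLp_G c)
  have ok1 : EntOK (cv P (G c)) := (entOK_iff m1 hb).1 a1
  have ok2 : EntOK (cv (cv P P) (G c)) := (entOK_iff m2 hb2).1 a2
  have mean0 : ∫ x, x ∂(cv P P) = 0 := by
    rw [integral_map (by fun_prop) (by fun_prop)]
    have i1 : Integrable (fun x : ℝ => x) P := hP.integrable (by norm_num)
    have e := integral_add (i1.comp_fst P) (i1.comp_snd P)
    have e1 : ∫ p : ℝ × ℝ, p.1 ∂(P.prod P) = ∫ x, x ∂P := by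
      have := integral_fun_fst (μ := P) (ν := P) (fun x : ℝ => x)
      simpa using this
    have e2 : ∫ p : ℝ × ℝ, p.2 ∂(P.prod P) = ∫ x, x ∂P := by
      have := integral_fun_snd (μ := P) (ν := P) (fun x : ℝ => x)
      simpa using this
    rw [e1, e2, h1] at e
    simpa using e
  have s1 : ∫ x, x ^ 2 ∂(cv P (G c)) = 1 + c := by
    rw [second_cv hP (memLp_G c) h1, h2, second_G]
  have s2 : ∫ x, x ^ 2 ∂(cv (cv P P) (G c)) = 2 + c := by
    rw [second_cv m0 (memLp_G c) mean0, second_cv hP hP h1, h2, second_G]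
    ring
  refine ⟨ok1, ok2, ?_⟩
  rw [kl_ent m1 hb ok1, kl_ent m2 hb2 ok2, s1, s2] at a3
  push_cast at a3
  have e1 : (1 + (c : ℝ)) / (2 * (1 + c)) = 1 / 2 := by field_simp
  have e2 : (2 + (c : ℝ)) / (2 * (2 + c)) = 1 / 2 := by field_simp
  have l1 : Real.log ((1 + (c : ℝ)) ^ 2 / (c * (2 + c))) =
      2 * Real.log (1 + c) - Real.log c - Real.log (2 + c) := by
    rw [Real.log_div (by positivity) (by positivity), Real.log_mul (by positivity) (by positivity),
      Real.log_pow]
    push_cast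
    ring
  have l2 : Real.log (2 * Real.pi * (1 + c)) = Real.log (2 * Real.pi) + Real.log (1 + c) :=
    Real.log_mul (by positivity) (by positivity)
  have l3 : Real.log (2 * Real.pi * (2 + c)) = Real.log (2 * Real.pi) + Real.log (2 + c) :=
    Real.log_mul (by positivity) (by positivity)
  have l4 : Real.log (2 * Real.pi * c) = Real.log (2 * Real.pi) + Real.log c :=
    Real.log_mul (by positivity) (by positivity)
  rw [e1, e2, l1, l2, l3] at a3
  rw [ent_G hc, l4]
  linarith

/-- scaling of a divergence from a Gaussian law -/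
theorem kl_scale (ν : Measure ℝ) [IsProbabilityMeasure ν] {a : ℝ} (ha : a ≠ 0) {s : ℝ≥0}
    (hs : a ^ 2 * s = 1) : klDiv (ν.map (fun x => a * x)) (G 1) = klDiv ν (G s) := by
  have h : (G s).map (fun x => a * x) = G 1 := by
    rw [gaussianReal_map_const_mul, mul_zero]
    congr 1
    ext
    push_cast
    exact hs
  have e := kl_map_equiv ν (G s) (MeasurableEquiv.mulLeft₀ a ha)
  have h3 : (⇑(MeasurableEquiv.mulLeft₀ a ha) : ℝ → ℝ) = fun x => a * x := by
    funext x
    simp
  rw [h3, h] at e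
  exact e

/-- **Entropy power inequality with one Gaussian summand**, from the strong data processing
inequality at dyadic weights. -/
theorem epi_of_sdpi {ν : Measure ℝ} [IsProbabilityMeasure ν] (hmem : MemLp (fun x : ℝ => x) 2 ν)
    (hok : EntOK ν) {c : ℝ≥0} (hc : c ≠ 0)
    (hsd : ∀ (k n : ℕ), 0 < k → k < 2 ^ n → ∀ (ρ : Measure ℝ), IsProbabilityMeasure ρ →
      klDiv ((ρ.prod (G 1)).map fun p : ℝ × ℝ =>
        Real.sqrt ((k : ℝ) / 2 ^ n) * p.1 + Real.sqrt (1 - (k : ℝ) / 2 ^ n) * p.2) (G 1) ≤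
        ENNReal.ofReal ((k : ℝ) / 2 ^ n) * klDiv ρ (G 1)) :
    EntOK (cv ν (G c)) ∧
      Real.exp (2 * ent ν) + Real.exp (2 * ent (G c)) ≤ Real.exp (2 * ent (cv ν (G c))) := by
  have hc' : (0 : ℝ) < c := by positivity
  have mV : MemLp (fun x : ℝ => x) 2 (cv ν (G c)) := memLp_cv hmem (memLp_G c)
  have hcomm : cv (G c) ν = cv ν (G c) := by
    rw [cv_eq_conv, cv_eq_conv, Measure.conv_comm]
  have sV : ∫ x, x ^ 2 ∂(cv ν (G c)) = ∫ x, x ^ 2 ∂ν + c := by
    rw [← hcomm, second_cv (memLp_G c) hmem (mean_G c), second_G, add_comm]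
  have okV : EntOK (cv ν (G c)) := by
    have h := kl_cv_le ν (G c) (G c)
    rw [cv_G] at h
    have hne : klDiv ν (G c) ≠ ∞ := (entOK_iff hmem hc).2 hok
    exact (entOK_iff mV (by positivity)).1 (ne_top_of_le_ne_top hne h)
  refine ⟨okV, opt_of_dyadic fun k n hk hkn => ?_⟩
  set l : ℝ := (k : ℝ) / 2 ^ n with hl
  have hp : (0 : ℝ) < 2 ^ n := by positivity
  have l0 : 0 < l := div_pos (by exact_mod_cast hk) hp
  have l1 : l < 1 := by
    rw [hl, div_lt_one hp]
    exact_mod_cast hkn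
  have l1' : 0 < 1 - l := by linarith
  -- the two reference variances
  set s2 : ℝ≥0 := ⟨l * c / (1 - l), by positivity⟩ with hs2
  set s1 : ℝ≥0 := ⟨c / (1 - l), by positivity⟩ with hs1
  have c2 : (s2 : ℝ) = l * c / (1 - l) := rfl
  have c1 : (s1 : ℝ) = c / (1 - l) := rfl
  have s2' : s2 ≠ 0 := by
    intro h
    have : (s2 : ℝ) = 0 := by rw [h]; rfl
    rw [c2] at this
    have : 0 < l * c / (1 - l) := by positivity
    linarith
  have s1' : s1 ≠ 0 := by
    intro h
    have : (s1 : ℝ) = 0 := by rw [h]; rfl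
    rw [c1] at this
    have : 0 < c / (1 - l) := by positivity
    linarith
  set κ : ℝ := Real.sqrt ((1 - l) / (l * c)) with hκ
  have hκ2 : κ ^ 2 = (1 - l) / (l * c) := Real.sq_sqrt (by positivity)
  have hκ0 : 0 < κ := Real.sqrt_pos.2 (by positivity)
  have hρ : IsProbabilityMeasure (ν.map (fun x => κ * x)) :=
    Measure.isProbabilityMeasure_map (by fun_prop)
  have key := hsd k n hk hkn (ν.map (fun x => κ * x)) hρ
  rw [← hl] at key
  -- the left side is the law of a multiple of `V + W`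
  have hlaw : (((ν.map (fun x => κ * x)).prod (G 1)).map fun p : ℝ × ℝ =>
      Real.sqrt l * p.1 + Real.sqrt (1 - l) * p.2) =
      (cv ν (G c)).map (fun x => Real.sqrt l * κ * x) := by
    have hsq : Real.sqrt l ^ 2 = l := Real.sq_sqrt l0.le
    have hsl : 0 < Real.sqrt l := Real.sqrt_pos.2 l0
    have hG : G c = (G 1).map (fun x => Real.sqrt c * x) := by
      rw [gaussianReal_map_const_mul, mul_zero]
      congr 1
      ext
      push_cast
      rw [Real.sq_sqrt hc'.le, mul_one]
    have hcoef : Real.sqrt l * κ * Real.sqrt c = Real.sqrt (1 - l) := by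
      rw [hκ, ← Real.sqrt_mul l0.le, ← Real.sqrt_mul (by positivity)]
      congr 1
      field_simp
    have e1 : (ν.map (fun x => κ * x)).prod (G 1) =
        (ν.prod (G 1)).map (Prod.map (fun x => κ * x) id) := by
      have := Measure.map_prod_map ν (G 1) (by fun_prop : Measurable fun x : ℝ => κ * x)
        measurable_id
      rw [Measure.map_id] at this
      exact this
    have e2 : ν.prod (G c) = (ν.prod (G 1)).map (Prod.map id (fun x => Real.sqrt c * x)) := by
      have := Measure.map_prod_map ν (G 1) measurable_id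
        (by fun_prop : Measurable fun x : ℝ => Real.sqrt c * x)
      rw [Measure.map_id, ← hG] at this
      exact this
    rw [cv, e1, e2, Measure.map_map (by fun_prop) (by fun_prop),
      Measure.map_map (by fun_prop) (by fun_prop), Measure.map_map (by fun_prop) (by fun_prop)]
    congr 1
    funext p
    simp only [Function.comp, Prod.map, id]
    rw [← hcoef]
    ring
  rw [hlaw, kl_scale (cv ν (G c)) (a := Real.sqrt l * κ) (by positivity) (s := s1) (by
      rw [c1, mul_pow, hκ2, Real.sq_sqrt l0.le]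
      field_simp),
    kl_scale ν (a := κ) hκ0.ne' (s := s2) (by
      rw [c2, hκ2]
      field_simp)] at key
  have fin2 : klDiv ν (G s2) ≠ ∞ := (entOK_iff hmem s2').2 hok
  have key2 := ENNReal.toReal_mono (ENNReal.mul_ne_top ENNReal.ofReal_ne_top fin2) key
  rw [ENNReal.toReal_mul, ENNReal.toReal_ofReal l0.le, kl_ent mV s1' okV, kl_ent hmem s2' hok,
    sV, c1, c2] at key2
  have g1 : Real.log (2 * Real.pi * (c / (1 - l))) =
      Real.log (2 * Real.pi * c) - Real.log (1 - l) := by
    rw [← Real.log_div (by positivity) (by positivity)]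
    congr 1
    ring
  have g2 : Real.log (2 * Real.pi * (l * c / (1 - l))) =
      Real.log (2 * Real.pi * c) + Real.log l - Real.log (1 - l) := by
    rw [← Real.log_mul (by positivity) (by positivity),
      ← Real.log_div (by positivity) (by positivity)]
    congr 1
    ring
  have g3 : (∫ x, x ^ 2 ∂ν + c) / (2 * (c / (1 - l))) =
      (1 - l) * (∫ x, x ^ 2 ∂ν) / (2 * c) + (1 - l) / 2 := by
    field_simp
  have g4 : l * ((∫ x, x ^ 2 ∂ν) / (2 * (l * c / (1 - l)))) =
      (1 - l) * (∫ x, x ^ 2 ∂ν) / (2 * c) := by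
    field_simp
  rw [g1, g2, g3, mul_add, mul_add, g4] at key2
  rw [ent_G hc, hb]
  nlinarith [key2]

end Pool.Agent.MP_ec2ab1_pr.GR
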