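import Mathlib
import Pool.Agent.Lib.MP_ec2ab1_pr_h74.Ent

/-!
# Submodularity of the differential entropy with a Gaussian common summand

For any two laws `P`, `Q` with finite second moment,
`h(X + Y + W) + h(W) ≤ h(X + W) + h(Y + W)`, `W ~ N(0, c)`.
-/

set_option autoImplicit false

namespace Pool.Agent.MP_ec2ab1_pr.GR

open MeasureTheory ProbabilityTheory InformationTheory
open scoped NNReal ENNReal
open Pool.Agent.Lib.MP_ec2ab1_pr_h18

/-! ### translations -/

theorem rnDeriv_map_add (ν : Measure ℝ) [SigmaFinite ν] (a : ℝ) :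
    (fun x => (ν.map (fun x => x + a)).rnDeriv volume (x + a)) =ᵐ[volume]
      ν.rnDeriv volume := by
  have h := (measurableEmbedding_addRight a).rnDeriv_map ν (volume : Measure ℝ)
  have hv : (volume : Measure ℝ).map (fun x => x + a) = volume := by
    simpa using map_add_right_eq_self (volume : Measure ℝ) a
  rw [hv] at h
  exact h

theorem ent_map_add (ν : Measure ℝ) [SigmaFinite ν] (a : ℝ) :
    ent (ν.map (fun x => x + a)) = ent ν := by
  unfold ent
  congr 1
  rw [← integral_add_right_eq_self (μ := (volume : Measure ℝ))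
    (fun x => ((ν.map (fun x => x + a)).rnDeriv volume x).toReal *
      Real.log ((ν.map (fun x => x + a)).rnDeriv volume x).toReal) a]
  refine integral_congr_ae ?_
  filter_upwards [rnDeriv_map_add ν a] with x hx
  rw [hx]

theorem entOK_map_add {ν : Measure ℝ} [SigmaFinite ν] (a : ℝ) (h : EntOK ν) :
    EntOK (ν.map (fun x => x + a)) := by
  have hv : (volume : Measure ℝ).map (fun x => x + a) = volume := by
    simpa using map_add_right_eq_self (volume : Measure ℝ) a
  refine ⟨?_, ?_⟩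
  · have := h.1.map (f := fun x : ℝ => x + a) (by fun_prop)
    rwa [hv] at this
  · have e : (fun x => ((ν.map (fun x => x + a)).rnDeriv volume (x + a)).toReal *
        Real.log ((ν.map (fun x => x + a)).rnDeriv volume (x + a)).toReal) =ᵐ[volume]
        fun x => (ν.rnDeriv volume x).toReal * Real.log (ν.rnDeriv volume x).toReal := by
      filter_upwards [rnDeriv_map_add ν a] with x hx
      rw [hx]
    have h2 := (integrable_congr e).2 h.2
    have h3 := h2.comp_add_right (-a)
    simpa using h3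

theorem cv_map_add (P Q : Measure ℝ) [IsProbabilityMeasure P] [IsProbabilityMeasure Q]
    (a b : ℝ) : cv (P.map (fun x => x + a)) (Q.map (fun x => x + b)) =
      (cv P Q).map (fun x => x + (a + b)) := by
  have h := Measure.map_prod_map P Q (by fun_prop : Measurable fun x : ℝ => x + a)
    (by fun_prop : Measurable fun x : ℝ => x + b)
  rw [cv, h, Measure.map_map (by fun_prop) (by fun_prop),
    Measure.map_map (by fun_prop) (by fun_prop)]
  congr 1
  funext p
  simp only [Function.comp, Prod.map]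
  ring

theorem cv_map_add_left (P Q : Measure ℝ) [IsProbabilityMeasure P] [IsProbabilityMeasure Q]
    (a : ℝ) : cv (P.map (fun x => x + a)) Q = (cv P Q).map (fun x => x + a) := by
  have h := cv_map_add P Q a 0
  simpa using h

theorem memLp_map_add {P : Measure ℝ} [IsProbabilityMeasure P]
    (hP : MemLp (fun x : ℝ => x) 2 P) (a : ℝ) :
    MemLp (fun x : ℝ => x) 2 (P.map (fun x => x + a)) := by
  rw [memLp_map_measure_iff (by fun_prop) (by fun_prop)]
  exact hP.add (memLp_const a)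

theorem mean_map_add {P : Measure ℝ} [IsProbabilityMeasure P]
    (hP : MemLp (fun x : ℝ => x) 2 P) :
    ∫ x, x ∂(P.map (fun x => x + -∫ y, y ∂P)) = 0 := by
  rw [integral_map (by fun_prop) (by fun_prop),
    integral_add (hP.integrable (by norm_num)) (integrable_const _)]
  simp

theorem mean_cv {P Q : Measure ℝ} [IsProbabilityMeasure P] [IsProbabilityMeasure Q]
    (hP : MemLp (fun x : ℝ => x) 2 P) (hQ : MemLp (fun x : ℝ => x) 2 Q) :
    ∫ x, x ∂(cv P Q) = ∫ x, x ∂P + ∫ x, x ∂Q := by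
  rw [integral_map (by fun_prop) (by fun_prop)]
  have i1 : Integrable (fun x : ℝ => x) P := hP.integrable (by norm_num)
  have i2 : Integrable (fun x : ℝ => x) Q := hQ.integrable (by norm_num)
  have e := integral_add (i1.comp_fst Q) (i2.comp_snd P)
  have e1 : ∫ p : ℝ × ℝ, p.1 ∂(P.prod Q) = ∫ x, x ∂P := by
    have := integral_fun_fst (μ := P) (ν := Q) (fun x : ℝ => x)
    simpa using this
  have e2 : ∫ p : ℝ × ℝ, p.2 ∂(P.prod Q) = ∫ x, x ∂Q := by
    have := integral_fun_snd (μ := P) (ν := Q) (fun x : ℝ => x)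
    simpa using this
  rw [e1, e2] at e
  exact e

/-! ### submodularity -/

/-- the pair `(X, X + V)` against a Gaussian law, mean zero -/
theorem pair_kl {P V : Measure ℝ} [IsProbabilityMeasure P] [IsProbabilityMeasure V]
    (hP : MemLp (fun x : ℝ => x) 2 P) (h1 : ∫ x, x ∂P = 0) (hV : MemLp (fun x : ℝ => x) 2 V)
    {c : ℝ≥0} (hc : c ≠ 0) (hfin : klDiv V (G c) ≠ ∞) :
    klDiv (cv P V) (G c) ≠ ∞ ∧ klDiv ((P.prod V).map sh) (P.prod (cv P V)) ≠ ∞ ∧
      (klDiv (cv P V) (G c)).toReal +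
        (klDiv ((P.prod V).map sh) (P.prod (cv P V))).toReal =
        (klDiv V (G c)).toReal + (∫ x, x ^ 2 ∂P) / (2 * c) := by
  have hc' : (0 : ℝ) < c := by positivity
  have hp0 : IsProbabilityMeasure ((P.prod V).map sh) :=
    Measure.isProbabilityMeasure_map sh.measurable.aemeasurable
  have a1 := kl_sh hc hc P V hP hV h1 hfin
  have a2 := kl_snd ((P.prod V).map sh) P (G c)
  rw [snd_sh] at a2
  have a3 : klDiv (cv P V) (G c) ≠ ∞ := by
    intro h
    rw [h, top_add] at a2
    exact a1.1 a2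
  have a4 : klDiv ((P.prod V).map sh) (P.prod (cv P V)) ≠ ∞ := by
    intro h
    rw [h, add_top] at a2
    exact a1.1 a2
  refine ⟨a3, a4, ?_⟩
  rw [← ENNReal.toReal_add a3 a4, ← a2, a1.2, div_self hc'.ne', Real.log_one]
  field_simp
  ring

theorem entOK_cv_G {P : Measure ℝ} [IsProbabilityMeasure P]
    (hP : MemLp (fun x : ℝ => x) 2 P) {c : ℝ≥0} (hc : c ≠ 0) : EntOK (cv P (G c)) := by
  set m : ℝ := ∫ y, y ∂P with hm
  set P0 : Measure ℝ := P.map (fun x => x + -m) with hP0
  have i0 : IsProbabilityMeasure P0 := Measure.isProbabilityMeasure_map (by fun_prop)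
  have m0 : MemLp (fun x : ℝ => x) 2 P0 := memLp_map_add hP _
  have z0 : ∫ x, x ∂P0 = 0 := mean_map_add hP
  have k := (pair_kl m0 z0 (memLp_G c) hc (by simp)).1
  have ok : EntOK (cv P0 (G c)) := (entOK_iff (memLp_cv m0 (memLp_G c)) hc).1 k
  have e : cv P (G c) = (cv P0 (G c)).map (fun x => x + m) := by
    rw [hP0, cv_map_add_left, Measure.map_map (by fun_prop) (by fun_prop)]
    have : ((fun x : ℝ => x + m) ∘ fun x => x + -m) = id := by
      funext x
      simp
    rw [this, Measure.map_id]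
  rw [e]
  exact entOK_map_add m ok

theorem cv_assoc (P Q R : Measure ℝ) [IsProbabilityMeasure P] [IsProbabilityMeasure Q]
    [IsProbabilityMeasure R] : cv (cv P Q) R = cv P (cv Q R) := by
  rw [cv_eq_conv, cv_eq_conv, cv_eq_conv, cv_eq_conv, Measure.conv_assoc]

theorem cv_comm (P Q : Measure ℝ) [IsProbabilityMeasure P] [IsProbabilityMeasure Q] :
    cv P Q = cv Q P := by
  rw [cv_eq_conv, cv_eq_conv, Measure.conv_comm]

theorem sub_zero_mean {P Q : Measure ℝ} [IsProbabilityMeasure P] [IsProbabilityMeasure Q]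
    (hP : MemLp (fun x : ℝ => x) 2 P) (h1 : ∫ x, x ∂P = 0)
    (hQ : MemLp (fun x : ℝ => x) 2 Q) {c : ℝ≥0} (hc : c ≠ 0) :
    ent (cv (cv P Q) (G c)) + ent (G c) ≤ ent (cv P (G c)) + ent (cv Q (G c)) := by
  have hc' : (0 : ℝ) < c := by positivity
  set V : Measure ℝ := cv Q (G c) with hV
  have mV : MemLp (fun x : ℝ => x) 2 V := memLp_cv hQ (memLp_G c)
  have okV : EntOK V := entOK_cv_G hQ hc
  have finV : klDiv V (G c) ≠ ∞ := (entOK_iff mV hc).2 okV
  obtain ⟨a1, a2, a3⟩ := pair_kl hP h1 (memLp_G c) hc (by simp : klDiv (G c) (G c) ≠ ∞)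
  obtain ⟨b1, b2, b3⟩ := pair_kl hP h1 mV hc finV
  have d1 := info_le P (G c) Q
  have hcomm : cv (G c) Q = V := by rw [hV, cv_comm]
  rw [hcomm] at d1
  have d2 := ENNReal.toReal_mono a2 d1
  have mPG : MemLp (fun x : ℝ => x) 2 (cv P (G c)) := memLp_cv hP (memLp_G c)
  have mPV : MemLp (fun x : ℝ => x) 2 (cv P V) := memLp_cv hP mV
  have okPG : EntOK (cv P (G c)) := (entOK_iff mPG hc).1 a1
  have okPV : EntOK (cv P V) := (entOK_iff mPV hc).1 b1
  rw [kl_ent mPG hc okPG, second_cv hP (memLp_G c) h1, second_G, klDiv_self,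
    ENNReal.toReal_zero] at a3
  rw [kl_ent mPV hc okPV, second_cv hP mV h1, kl_ent mV hc okV] at b3
  rw [cv_assoc, ← hV, ent_G hc]
  have e1 : (∫ x, x ^ 2 ∂P + (c : ℝ)) / (2 * c) = (∫ x, x ^ 2 ∂P) / (2 * c) + 1 / 2 := by
    field_simp
  rw [e1] at a3
  rw [add_div] at b3
  linarith

/-- **Submodularity**: for any two laws with finite second moment,
`h(X + Y + W) + h(W) ≤ h(X + W) + h(Y + W)` for `W ~ N(0, c)`. -/
theorem subH {P Q : Measure ℝ} [IsProbabilityMeasure P] [IsProbabilityMeasure Q]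
    (hP : MemLp (fun x : ℝ => x) 2 P) (hQ : MemLp (fun x : ℝ => x) 2 Q) {c : ℝ≥0}
    (hc : c ≠ 0) :
    ent (cv (cv P Q) (G c)) + Real.log (2 * Real.pi * Real.exp 1 * c) / 2 ≤
      ent (cv P (G c)) + ent (cv Q (G c)) := by
  set m : ℝ := ∫ y, y ∂P with hm
  set P0 : Measure ℝ := P.map (fun x => x + -m) with hP0
  have i0 : IsProbabilityMeasure P0 := Measure.isProbabilityMeasure_map (by fun_prop)
  have m0 : MemLp (fun x : ℝ => x) 2 P0 := memLp_map_add hP _
  have z0 : ∫ x, x ∂P0 = 0 := mean_map_add hP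
  have h := sub_zero_mean m0 z0 hQ hc
  rw [hP0, cv_map_add_left, cv_map_add_left, cv_map_add_left, ent_map_add, ent_map_add] at h
  have hg : Real.log (2 * Real.pi * Real.exp 1 * c) / 2 = ent (G c) := by
    rw [← exp_two_ent_G hc, Real.log_exp]
    ring
  rw [hg]
  exact h

/-- The entropy power inequality with one Gaussian summand, from the strong data processing
inequality at dyadic weights. -/
theorem epiH {ν : Measure ℝ} [IsProbabilityMeasure ν] (hmem : MemLp (fun x : ℝ => x) 2 ν)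
    (hok : EntOK ν) {c : ℝ≥0} (hc : c ≠ 0)
    (hsd : ∀ (k n : ℕ), 0 < k → k < 2 ^ n → ∀ (ρ : Measure ℝ), IsProbabilityMeasure ρ →
      klDiv ((ρ.prod (G 1)).map fun p : ℝ × ℝ =>
        Real.sqrt ((k : ℝ) / 2 ^ n) * p.1 + Real.sqrt (1 - (k : ℝ) / 2 ^ n) * p.2) (G 1) ≤
        ENNReal.ofReal ((k : ℝ) / 2 ^ n) * klDiv ρ (G 1)) :
    Real.exp (2 * ent ν) + 2 * Real.pi * Real.exp 1 * c ≤ Real.exp (2 * ent (cv ν (G c))) := by
  rw [← exp_two_ent_G hc]
  exact (epi_of_sdpi hmem hok hc hsd).2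

end Pool.Agent.MP_ec2ab1_pr.GR
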