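import Mathlib
import Pool.Agent.Lib.MP_ec2ab1_pr_h74.Sub
import Pool.Agent.Lib.MP_ec2ab1_pr_h63.Sdpi

/-!
# The comparison of entropy powers of `X + Y` and `X + Z`: from positive noise to all noise levels
-/

set_option autoImplicit false

namespace Pool.Agent.MP_ec2ab1_pr.GR

open MeasureTheory ProbabilityTheory InformationTheory
open scoped NNReal ENNReal Topology
open Filter
open Pool.Agent.Lib.MP_ec2ab1_pr_h18

open Classical in
/-- The entropy power `exp (2 h) / (2 π e)`, zero for a law without entropy. -/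
noncomputable def pw (ν : Measure ℝ) : ℝ :=
  if EntOK ν then Real.exp (2 * ent ν) / (2 * Real.pi * Real.exp 1) else 0

theorem two_pi_e_pos : 0 < 2 * Real.pi * Real.exp 1 := by positivity

theorem pw_of {ν : Measure ℝ} (h : EntOK ν) :
    pw ν = Real.exp (2 * ent ν) / (2 * Real.pi * Real.exp 1) := by
  rw [pw, if_pos h]

theorem pw_not {ν : Measure ℝ} (h : ¬ EntOK ν) : pw ν = 0 := by
  rw [pw, if_neg h]

theorem pw_nonneg (ν : Measure ℝ) : 0 ≤ pw ν := by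
  by_cases h : EntOK ν
  · rw [pw_of h]
    positivity
  · rw [pw_not h]

theorem exp_two_ent {ν : Measure ℝ} (h : EntOK ν) :
    Real.exp (2 * ent ν) = 2 * Real.pi * Real.exp 1 * pw ν := by
  rw [pw_of h, mul_div_cancel₀ _ two_pi_e_pos.ne']

theorem exp_four_ent {ν : Measure ℝ} (h : EntOK ν) :
    Real.exp (4 * ent ν) = (2 * Real.pi * Real.exp 1) ^ 2 * pw ν ^ 2 := by
  rw [← mul_pow, ← exp_two_ent h, ← Real.exp_nat_mul]
  congr 1
  push_cast
  ring

/-- the entropy power inequality for Gaussian noise -/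
theorem epi {ν : Measure ℝ} [IsProbabilityMeasure ν] (hmem : MemLp (fun x : ℝ => x) 2 ν)
    (hok : EntOK ν) {c : ℝ≥0} (hc : c ≠ 0) :
    Real.exp (2 * ent ν) + 2 * Real.pi * Real.exp 1 * c ≤ Real.exp (2 * ent (cv ν (G c))) :=
  epiH hmem hok hc fun k n _ hk ρ _ => Pool.Agent.Lib.MP_ec2ab1_pr_h63.sdpi ρ k n hk.le

theorem isProb_cv (P Q : Measure ℝ) [IsProbabilityMeasure P] [IsProbabilityMeasure Q] :
    IsProbabilityMeasure (cv P Q) := Measure.isProbabilityMeasure_map (by fun_prop)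

theorem epi_pw {ν : Measure ℝ} [IsProbabilityMeasure ν] (hmem : MemLp (fun x : ℝ => x) 2 ν)
    (hok : EntOK ν) {c : ℝ≥0} (hc : c ≠ 0) : pw ν + c ≤ pw (cv ν (G c)) := by
  have h := epi hmem hok hc
  rw [exp_two_ent hok, exp_two_ent (entOK_cv_G hmem hc)] at h
  have h2 := two_pi_e_pos
  nlinarith

theorem epi_two {P : Measure ℝ} [IsProbabilityMeasure P] (hP : MemLp (fun x : ℝ => x) 2 P)
    (hok : EntOK (cv P P)) {c : ℝ≥0} (hc : c ≠ 0) :
    Real.exp (2 * ent (cv P P)) + 2 * Real.pi * Real.exp 1 * (2 * c) ≤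
      Real.exp (2 * ent (cv (cv P P) (G (2 * c)))) := by
  have := isProb_cv P P
  have h := epi (memLp_cv hP hP) hok (c := 2 * c) (by positivity)
  push_cast at h
  exact h

theorem cv_G_G (P : Measure ℝ) [IsProbabilityMeasure P] {s t : ℝ≥0} (h : s ≤ t) :
    cv (cv P (G s)) (G (t - s)) = cv P (G t) := by
  rw [cv_assoc, cv_G, add_tsub_cancel_of_le h]

theorem cv_G_zero (P : Measure ℝ) [IsProbabilityMeasure P] : cv P (G 0) = P := by
  rw [cv_eq_conv]
  show Measure.conv P (gaussianReal 0 0) = P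
  rw [gaussianReal_zero_var, Measure.conv_dirac_zero]

theorem step_pw {P : Measure ℝ} [IsProbabilityMeasure P] (hP : MemLp (fun x : ℝ => x) 2 P)
    {s t : ℝ≥0} (hs : s ≠ 0) (h : s ≤ t) :
    pw (cv P (G s)) + (t - s) ≤ pw (cv P (G t)) := by
  rcases h.eq_or_lt with rfl | h
  · simp
  have := isProb_cv P (G s)
  have h1 := epi_pw (memLp_cv hP (memLp_G s)) (entOK_cv_G hP hs) (c := t - s)
    (tsub_pos_of_lt h).ne'
  rw [cv_G_G P h.le, NNReal.coe_sub h.le] at h1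
  exact h1

theorem le_pw {P : Measure ℝ} [IsProbabilityMeasure P] (hP : MemLp (fun x : ℝ => x) 2 P)
    {t : ℝ≥0} (ht : t ≠ 0) : (t : ℝ) ≤ pw (cv P (G t)) := by
  have ht' : (0 : ℝ) < t := by positivity
  have hl : Tendsto (fun x : ℝ => (t : ℝ) - x) (𝓝[>] 0) (𝓝 (t - 0)) :=
    ((by fun_prop : Continuous fun x : ℝ => (t : ℝ) - x).tendsto 0).mono_left nhdsWithin_le_nhds
  rw [sub_zero] at hl
  refine le_of_tendsto hl ?_
  filter_upwards [Ioc_mem_nhdsGT ht'] with x hx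
  obtain ⟨y, rfl⟩ : ∃ y : ℝ≥0, (y : ℝ) = x := ⟨⟨x, hx.1.le⟩, rfl⟩
  have hy : y ≠ 0 := fun h => hx.1.ne' (by rw [h]; rfl)
  have h1 := step_pw hP hy (t := t) (by exact_mod_cast hx.2)
  have h2 := pw_nonneg (cv P (G y))
  linarith

/-- The comparison for positive noise. -/
def Strong (P : Measure ℝ) : Prop := ∀ s t : ℝ≥0, s ≠ 0 → s ≤ t →
  Real.exp (4 * ent (cv P (G s))) +
    2 * Real.pi * Real.exp 1 * ((t : ℝ) - s) * Real.exp (2 * ent (cv P P)) +
    (2 * Real.pi * Real.exp 1) ^ 2 * ((t : ℝ) ^ 2 - (s : ℝ) ^ 2) ≤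
      Real.exp (4 * ent (cv P (G t)))

theorem power_pos {P : Measure ℝ} [IsProbabilityMeasure P] (hP : MemLp (fun x : ℝ => x) 2 P)
    (hS : EntOK (cv P P) → Strong P) {s t : ℝ≥0} (hs : s ≠ 0) (h : s ≤ t) :
    pw (cv P (G s)) ^ 2 + (t - s) * pw (cv P P) + ((t : ℝ) ^ 2 - (s : ℝ) ^ 2) ≤
      pw (cv P (G t)) ^ 2 := by
  have ht : t ≠ 0 := fun h0 => hs (le_antisymm (h0 ▸ h) zero_le)
  have hst : (s : ℝ) ≤ t := by exact_mod_cast h
  by_cases hok : EntOK (cv P P)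
  · have h1 := hS hok s t hs h
    rw [exp_four_ent (entOK_cv_G hP hs), exp_four_ent (entOK_cv_G hP ht), exp_two_ent hok] at h1
    have h2 := two_pi_e_pos
    have h3 : 0 < (2 * Real.pi * Real.exp 1) ^ 2 := by positivity
    refine le_of_mul_le_mul_left ?_ h3
    calc _ = (2 * Real.pi * Real.exp 1) ^ 2 * pw (cv P (G s)) ^ 2 +
        2 * Real.pi * Real.exp 1 * ((t : ℝ) - s) * (2 * Real.pi * Real.exp 1 * pw (cv P P)) +
        (2 * Real.pi * Real.exp 1) ^ 2 * ((t : ℝ) ^ 2 - (s : ℝ) ^ 2) := by ring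
      _ ≤ _ := h1
  · rw [pw_not hok]
    have h1 := step_pw hP hs h
    have h2 := le_pw hP hs
    have h3 : (0 : ℝ) ≤ s := s.2
    have h4 : 0 ≤ pw (cv P (G s)) := pw_nonneg _
    have h5 : (pw (cv P (G s)) + (t - s)) ^ 2 ≤ pw (cv P (G t)) ^ 2 := by
      apply pow_le_pow_left₀ (by linarith) h1
    nlinarith [mul_le_mul_of_nonneg_left h2 (by linarith : (0 : ℝ) ≤ (t : ℝ) - s)]

/-- The comparison for all noise levels. -/
theorem power_all {P : Measure ℝ} [IsProbabilityMeasure P] (hP : MemLp (fun x : ℝ => x) 2 P)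
    (hS : EntOK (cv P P) → Strong P) {s t : ℝ≥0} (h : s ≤ t) :
    pw (cv P (G s)) ^ 2 + (t - s) * pw (cv P P) + ((t : ℝ) ^ 2 - (s : ℝ) ^ 2) ≤
      pw (cv P (G t)) ^ 2 := by
  by_cases hs : s ≠ 0
  · exact power_pos hP hS hs h
  obtain rfl : s = 0 := not_not.1 hs
  by_cases ht : t ≠ 0
  swap
  · obtain rfl : t = 0 := not_not.1 ht
    simp
  have ht' : (0 : ℝ) < t := by positivity
  rw [cv_G_zero]
  have hl : Tendsto (fun x : ℝ => pw P ^ 2 + (t - x) * pw (cv P P) + ((t : ℝ) ^ 2 - x ^ 2))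
      (𝓝[>] 0) (𝓝 (pw P ^ 2 + (t - 0) * pw (cv P P) + ((t : ℝ) ^ 2 - 0 ^ 2))) :=
    ((by fun_prop : Continuous fun x : ℝ => pw P ^ 2 + (t - x) * pw (cv P P) +
      ((t : ℝ) ^ 2 - x ^ 2)).tendsto 0).mono_left nhdsWithin_le_nhds
  rw [NNReal.coe_zero]
  refine le_of_tendsto hl ?_
  filter_upwards [Ioc_mem_nhdsGT ht'] with x hx
  obtain ⟨y, rfl⟩ : ∃ y : ℝ≥0, (y : ℝ) = x := ⟨⟨x, hx.1.le⟩, rfl⟩
  have hy : y ≠ 0 := fun h => hx.1.ne' (by rw [h]; rfl)
  have h1 := power_pos hP hS hy (t := t) (by exact_mod_cast hx.2)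
  refine le_trans ?_ h1
  have h2 : pw P ^ 2 ≤ pw (cv P (G y)) ^ 2 := by
    refine pow_le_pow_left₀ (pw_nonneg _) ?_ 2
    by_cases hok : EntOK P
    · have := epi_pw hP hok hy
      linarith [hx.1]
    · rw [pw_not hok]
      exact pw_nonneg _
  linarith

theorem golden_pw {P : Measure ℝ} [IsProbabilityMeasure P] (hP : MemLp (fun x : ℝ => x) 2 P)
    (hS : EntOK (cv P P) → Strong P) (h : pw (cv P P) ≤ Real.goldenRatio) :
    pw (cv P P) ≤ pw (cv P (G 1)) := by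
  have h1 := power_all hP hS (s := 0) (t := 1) zero_le
  have h2 := pw_nonneg (cv P P)
  have h3 : Real.goldenRatio ^ 2 = Real.goldenRatio + 1 := Real.goldenRatio_sq
  have h4 := Real.goldenRatio_pos
  have h5 : 0 ≤ pw (cv P (G 0)) ^ 2 := by positivity
  rw [NNReal.coe_one, NNReal.coe_zero] at h1
  refine le_of_sq_le_sq ?_ (pw_nonneg _)
  nlinarith [mul_nonneg h2 (sub_nonneg.2 h), mul_nonneg (sub_nonneg.2 h) h4.le,
    Real.goldenRatio_mul_goldenConj]

theorem ent_le_of_pw {μ ν : Measure ℝ} (hμ : EntOK μ) (hν : EntOK ν) (h : pw μ ≤ pw ν) :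
    ent μ ≤ ent ν := by
  rw [pw_of hμ, pw_of hν, div_le_div_iff_of_pos_right two_pi_e_pos, Real.exp_le_exp] at h
  linarith

end Pool.Agent.MP_ec2ab1_pr.GR
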