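import Mathlib
import Pool.Agent.Lib.MP_ec2ab1_pr_h74.Fin
import Pool.Agent.Lib.MP_ec2ab1_pr_h63.GMon
import Pool.Agent.Lib.MP_ec2ab1_pr_h78.Step

/-!
# The comparison of entropy powers of `X + Y` and `X + Z`: the final statements from the step
-/

set_option autoImplicit false

namespace Pool.Agent.MP_ec2ab1_pr.GR

open MeasureTheory ProbabilityTheory InformationTheory
open scoped NNReal ENNReal
open Pool.Agent.Lib.MP_ec2ab1_pr_h18

/-- The step: a small amount of noise. -/
def StepStmt : Prop := ∀ P : Measure ℝ, IsProbabilityMeasure P →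
  MemLp (fun x : ℝ => x) 2 P → ∀ c h : ℝ≥0, c ≠ 0 → h ≠ 0 →
    Real.exp (4 * ent (cv P (G c))) +
      2 * Real.pi * Real.exp 1 * h * Real.exp (2 * ent (cv (cv P P) (G (2 * c)))) ≤
        Real.exp (4 * ent (cv P (G (c + h))))

theorem strong_of (hst : StepStmt) {P : Measure ℝ} [IsProbabilityMeasure P]
    (hP : MemLp (fun x : ℝ => x) 2 P) (hok : EntOK (cv P P)) : Strong P := by
  intro s t hs h
  exact strong (fun c h hc hh => hst P inferInstance hP c h hc hh)
    (fun c hc => epi_two hP hok hc) s t hs h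

/-- `N(X + √t Z)² - t N(X + Y) - t²` is nondecreasing in `t`. -/
theorem power_mono (hst : StepStmt) {P : Measure ℝ} [IsProbabilityMeasure P]
    (hP : MemLp (fun x : ℝ => x) 2 P) {s t : ℝ≥0} (h : s ≤ t) :
    pw (cv P (G s)) ^ 2 - s * pw (cv P P) - (s : ℝ) ^ 2 ≤
      pw (cv P (G t)) ^ 2 - t * pw (cv P P) - (t : ℝ) ^ 2 := by
  have h1 := power_all hP (fun hok => strong_of hst hP hok) h
  linarith

/-- The comparison, from an inequality at one noise level. -/
theorem Q1_of_level (hst : StepStmt) {P : Measure ℝ} [IsProbabilityMeasure P]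
    (hP : MemLp (fun x : ℝ => x) 2 P) (hok : EntOK (cv P P)) {s : ℝ≥0} (hs : s ≤ 1)
    (h : pw (cv P P) ^ 2 ≤ pw (cv P (G s)) ^ 2 + (1 - s) * pw (cv P P) + (1 - (s : ℝ) ^ 2)) :
    ent (cv P P) ≤ ent (cv P (G 1)) := by
  have h1 := power_mono hst hP hs
  rw [NNReal.coe_one] at h1
  refine ent_le_of_pw hok (entOK_cv_G hP one_ne_zero) (le_of_sq_le_sq ?_ (pw_nonneg _))
  linarith

/-- The golden ratio bound. -/
theorem Q1_golden (hst : StepStmt) {P : Measure ℝ} [IsProbabilityMeasure P]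
    (hP : MemLp (fun x : ℝ => x) 2 P) (hok : EntOK (cv P P))
    (h : pw (cv P P) ≤ Real.goldenRatio) : ent (cv P P) ≤ ent (cv P (G 1)) :=
  ent_le_of_pw hok (entOK_cv_G hP one_ne_zero)
    (golden_pw hP (fun hok => strong_of hst hP hok) h)

theorem stepStmt : StepStmt := by
  intro P hp hP c h hc hh
  exact step hP hc hh

end Pool.Agent.MP_ec2ab1_pr.GR
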